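import Pool.Agent.Helper70.RC.Goals

/-!
# Project TW, part RC, packet EC: existential closedness of real closed fields
-/

set_option autoImplicit false

namespace Pool.Agent.Helper16.RC

open MvPolynomial Pool.Agent.Helper70.RC

universe u v

/-- substitution of a constant for the first variable, evaluated -/
theorem subst_eval {R S M : Type u} [Field R] [Field S] [Field M] [Algebra R S] [Algebra S M] [Algebra R M]
    [IsScalarTower R S M] (n : ℕ) (c : S) (x : Fin n → M) (P : MvPolynomial (Fin (n + 1)) R) :
    aeval x (aeval (Fin.cons (C c) X : Fin (n + 1) → MvPolynomial (Fin n) S) P) =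
      aeval (Fin.cons (algebraMap S M c) x : Fin (n + 1) → M) P := by
  have h : ((aeval x : MvPolynomial (Fin n) S →ₐ[S] M).restrictScalars R).comp
      (aeval (Fin.cons (C c) X : Fin (n + 1) → MvPolynomial (Fin n) S) :
        MvPolynomial (Fin (n + 1)) R →ₐ[R] MvPolynomial (Fin n) S) =
      (aeval (Fin.cons (algebraMap S M c) x : Fin (n + 1) → M) : MvPolynomial (Fin (n + 1)) R →ₐ[R] M) := by
    apply MvPolynomial.algHom_ext
    intro i
    refine Fin.cases ?_ (fun j => ?_) i
    · simp
    · simp
  exact DFunLike.congr_fun h P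

theorem aeval_eq_eval' {R : Type u} [CommRing R] {n : ℕ} (x : Fin n → R) (P : MvPolynomial (Fin n) R) :
    aeval x P = eval x P := by
  rw [← MvPolynomial.coe_aeval_eq_eval]
  rfl

theorem ec0 (hALG : RCALG.{u, u}) (hBOT : RCBOT.{u, u}) (hECA : ECA.{u, u}) : EC.{u} := by
  intro n
  induction n with
  | zero =>
    intro R M _ _ _ _ _ x
    refine ⟨fun i => i.elim0, fun P hP => ?_⟩
    rw [MvPolynomial.eq_C_of_isEmpty P] at hP ⊢
    rw [MvPolynomial.aeval_C, map_eq_zero] at hP
    rw [hP, map_zero, map_zero]
  | succ n ih =>
    intro R M _ _ _ _ _ x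
    have hx : x = Fin.cons (x 0) (Fin.tail x) := (Fin.cons_self_tail x).symm
    by_cases halg : IsAlgebraic R (x 0)
    · obtain ⟨c, hc⟩ := hBOT R M (x 0) halg
      obtain ⟨a', ha'⟩ := ih R M (Fin.tail x)
      refine ⟨Fin.cons c a', fun P hP => ?_⟩
      have h1 := subst_eval (R := R) (S := R) (M := M) n c (Fin.tail x) P
      rw [hc, ← hx, hP] at h1
      have h2 := ha' _ h1
      have h3 := subst_eval (R := R) (S := R) (M := R) n c a' P
      rw [aeval_eq_eval', aeval_eq_eval', h2] at h3
      exact h3.symm
    · have htr : Transcendental R (x 0) := halg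
      have _hrc : IsRealClosed (algebraicClosure (IntermediateField.adjoin R ({x 0} : Set M)) M) :=
        hALG (IntermediateField.adjoin R ({x 0} : Set M)) M
      have _htow : IsScalarTower R (algebraicClosure (IntermediateField.adjoin R ({x 0} : Set M)) M) M :=
        IsScalarTower.of_algebraMap_eq fun r => rfl
      obtain ⟨y, hy⟩ := ih (algebraicClosure (IntermediateField.adjoin R ({x 0} : Set M)) M) M (Fin.tail x)
      obtain ⟨a, b, hab⟩ := hECA R M (x 0) htr n (fun j => (y j : M)) (fun j => by
        have h := (y j).2
        rw [mem_algebraicClosure_iff] at h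
        exact h)
      refine ⟨Fin.cons a b, fun P hP => hab P ?_⟩
      set t' : algebraicClosure (IntermediateField.adjoin R ({x 0} : Set M)) M :=
        algebraMap (IntermediateField.adjoin R ({x 0} : Set M)) _
          ⟨x 0, IntermediateField.mem_adjoin_simple_self R (x 0)⟩ with ht'
      have ht : algebraMap (algebraicClosure (IntermediateField.adjoin R ({x 0} : Set M)) M) M t' = x 0 := rfl
      have h1 := subst_eval (R := R) (S := algebraicClosure (IntermediateField.adjoin R ({x 0} : Set M)) M)
        (M := M) n t' (Fin.tail x) P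
      rw [ht, ← hx, hP] at h1
      have h2 := hy _ h1
      have h3 := subst_eval (R := R) (S := algebraicClosure (IntermediateField.adjoin R ({x 0} : Set M)) M)
        (M := M) n t' (fun j => (y j : M)) P
      rw [ht] at h3
      rw [← h3]
      have h4 : (aeval (fun j => (y j : M)) (aeval (Fin.cons (C t') X : Fin (n + 1) →
          MvPolynomial (Fin n) (algebraicClosure (IntermediateField.adjoin R ({x 0} : Set M)) M)) P) : M) =
          algebraMap (algebraicClosure (IntermediateField.adjoin R ({x 0} : Set M)) M) M
          (eval y (aeval (Fin.cons (C t') X : Fin (n + 1) →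
          MvPolynomial (Fin n) (algebraicClosure (IntermediateField.adjoin R ({x 0} : Set M)) M)) P)) := by
        rw [← aeval_eq_eval', ← MvPolynomial.aeval_algebraMap_apply]
        rfl
      rw [h4, h2, map_zero]

/-- packet EC -/
theorem ec : RCALG.{u, u} → RCBOT.{u, u} → ECA.{u, u} → EC.{u} := ec0

end Pool.Agent.Helper16.RC
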